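import Mathlib
import Pool.Agent.H759R2.Kad.Props3

open scoped ComplexOrder InnerProductSpace ComplexConjugate
open Finset

noncomputable section

namespace H759R2.Kad

universe u v

theorem prove3_iso : K_iso.{u, v} := by
  intro A _ _ _ B _ _ _ φ H _ _ _ u w C hC hw m hL Y
  have hφ : ∀ a, ((φ : A →⋆ₙₐ[ℂ] B) : A → B) a = φ a := fun a => rfl
  have hn : ‖CStarMatrix.mapₙₐ (n := Fin m) (φ : A →⋆ₙₐ[ℂ] B) Y‖ ≤ ‖Y‖ :=
    NonUnitalStarAlgHom.norm_apply_le _ _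
  have he : amp w (Fin m) (CStarMatrix.mapₙₐ (n := Fin m) (φ : A →⋆ₙₐ[ℂ] B) Y) =
      amp u (Fin m) Y := by
    ext ξ i
    rw [amp_apply, amp_apply]
    refine Finset.sum_congr rfl fun j _ => ?_
    rw [← hw]
    rfl
  rw [← he]
  exact (hL _).trans (mul_le_mul_of_nonneg_left hn hC)

end H759R2.Kad
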